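import Pool.Agent.W957.CH.StmB

set_option autoImplicit false

namespace Pool.Agent.W371.CH

open Finset Pool.Agent.W957.CH

variable {V : Type}

theorem sg_head (c : ℕ → V) {a b : ℕ} (hab : a ≤ b) : (sg c a b).head? = some (c a) := by
  unfold sg
  obtain ⟨k, rfl⟩ := Nat.exists_eq_add_of_le hab
  have : a + k + 1 - a = k + 1 := by omega
  rw [this, List.range'_succ, List.map_cons, List.head?_cons]

theorem sg_last (c : ℕ → V) {a b : ℕ} (hab : a ≤ b) : (sg c a b).getLast? = some (c b) := by
  unfold sg
  obtain ⟨k, rfl⟩ := Nat.exists_eq_add_of_le hab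
  have : a + k + 1 - a = k + 1 := by omega
  rw [this, List.range'_1_concat, List.map_append, List.map_cons, List.map_nil,
    List.getLast?_concat]

theorem sg_mem (c : ℕ → V) {a b : ℕ} (hab : a ≤ b) (x : V) :
    x ∈ sg c a b ↔ ∃ i, a ≤ i ∧ i ≤ b ∧ c i = x := by
  unfold sg
  rw [List.mem_map]
  constructor
  · rintro ⟨i, hi, rfl⟩
    rw [List.mem_range'_1] at hi
    exact ⟨i, hi.1, by omega, rfl⟩
  · rintro ⟨i, h1, h2, rfl⟩
    exact ⟨i, by rw [List.mem_range'_1]; omega, rfl⟩

theorem sg_length (c : ℕ → V) (a b : ℕ) : (sg c a b).length = b + 1 - a := by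
  unfold sg
  rw [List.length_map, List.length_range']

theorem chain_range (G : SimpleGraph V) (c : ℕ → V) (n : ℕ)
    (h : ∀ i, i + 1 < n → G.Adj (c i) (c (i + 1))) :
    ∀ (k a : ℕ), a + k ≤ n → ((List.range' a k).map c).IsChain G.Adj := by
  intro k
  induction k with
  | zero =>
    intro a _
    simp
  | succ k ih =>
    intro a ha
    rw [List.range'_succ, List.map_cons, List.isChain_cons]
    refine ⟨?_, ih (a + 1) (by omega)⟩
    intro y hy
    cases k with
    | zero => simp at hy
    | succ k =>
      rw [List.range'_succ, List.map_cons, List.head?_cons] at hy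
      have : c (a + 1) = y := by simpa using hy
      rw [← this]
      exact h a (by omega)

theorem sg_pth {G : SimpleGraph V} {n : ℕ} {c : ℕ → V} (hc : CR G n c) {a b : ℕ} (hab : a ≤ b)
    (hb : b < n) : Pth G (sg c a b) := by
  constructor
  · unfold sg
    refine List.Nodup.map_on ?_ List.nodup_range'
    intro i hi j hj hij
    rw [List.mem_range'_1] at hi hj
    exact hc.inj i j (by omega) (by omega) hij
  · exact chain_range G c n hc.adj _ _ (by omega)

theorem noCA {S R : List V} {x y : V} (hx : x ∈ S) (hy : y ∈ R) (hd : ∀ z ∈ S, z ∉ R)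
    (h1 : S.getLast? ≠ some x) (h2 : R.getLast? ≠ some y) : ¬ CA (S ++ R) x y := by
  have hS : S ≠ [] := List.ne_nil_of_mem hx
  have hR : R ≠ [] := List.ne_nil_of_mem hy
  have hxR : x ∉ R := hd x hx
  have hyS : y ∉ S := fun h => hd y h hy
  have hlast : (S ++ R).getLast? = R.getLast? := List.getLast?_append_of_ne_nil S hR
  have hhead : (S ++ R).head? = S.head? := List.head?_append_of_ne_nil S hS
  rintro ((⟨l1, l2, h⟩ | ⟨ha, hb⟩) | (⟨l1, l2, h⟩ | ⟨ha, hb⟩))
  · rcases List.append_eq_append_iff.1 h with ⟨t, e1, e2⟩ | ⟨t, e1, e2⟩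
    · -- l1 = S ++ t, R = t ++ x :: y :: l2
      apply hxR
      rw [e2]
      simp
    · -- S = l1 ++ t, x :: y :: l2 = t ++ R
      cases t with
      | nil =>
        apply hxR
        have : R = x :: y :: l2 := by simpa using e2.symm
        rw [this]
        simp
      | cons p t =>
        rw [List.cons_append, List.cons.injEq] at e2
        obtain ⟨rfl, e3⟩ := e2
        cases t with
        | nil =>
          apply h1
          rw [e1, List.getLast?_concat]
        | cons q t =>
          rw [List.cons_append, List.cons.injEq] at e3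
          obtain ⟨rfl, _⟩ := e3
          apply hyS
          rw [e1]
          simp
  · rw [hlast] at ha
    exact hxR (List.mem_of_getLast? ha)
  · rcases List.append_eq_append_iff.1 h with ⟨t, e1, e2⟩ | ⟨t, e1, e2⟩
    · apply hxR
      rw [e2]
      simp
    · cases t with
      | nil =>
        apply hxR
        have : R = y :: x :: l2 := by simpa using e2.symm
        rw [this]
        simp
      | cons p t =>
        rw [List.cons_append, List.cons.injEq] at e2
        obtain ⟨rfl, _⟩ := e2
        apply hyS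
        rw [e1]
        simp
  · rw [hlast] at ha
    exact h2 ha

theorem split1 (p : V → Prop) : ∀ l : List V, (∃ x ∈ l, p x) →
    ∃ l1 x l2, l = l1 ++ x :: l2 ∧ p x ∧ ∀ y ∈ l1, ¬ p y := by
  intro l
  induction l with
  | nil =>
    rintro ⟨x, hx, _⟩
    simp at hx
  | cons z l ih =>
    rintro ⟨x, hx, hpx⟩
    by_cases hz : p z
    · exact ⟨[], z, l, rfl, hz, by simp⟩
    · have : ∃ x ∈ l, p x := by
        rcases List.mem_cons.1 hx with rfl | h
        · exact absurd hpx hz
        · exact ⟨x, h, hpx⟩
      obtain ⟨l1, y, l2, e, hy, hn⟩ := ih this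
      refine ⟨z :: l1, y, l2, by rw [e]; rfl, hy, ?_⟩
      intro t ht
      rcases List.mem_cons.1 ht with rfl | h
      · exact hz
      · exact hn t h

theorem pth_reverse {G : SimpleGraph V} {l : List V} (h : Pth G l) : Pth G l.reverse := by
  refine ⟨List.nodup_reverse.2 h.1, ?_⟩
  rw [List.isChain_reverse]
  exact h.2.imp fun _ _ hab => hab.symm

open Classical in
theorem core (h1 : S_EAR) (h2 : S_CH2L) [DecidableEq V] (X : Cx V) (n : ℕ) (c : ℕ → V) (a b : ℕ)
    (W D : Finset V) (d : V → ℕ) (R : List V) (hOk : Ok X) (hG : Good X n c) (hWA : W ⊆ X.A)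
    (hWd : Disjoint W (img n c)) (hab : a ≤ b) (hb : b < n) (hF : Free X.G n c a b)
    (hn : 2 * (b - a) ≤ n) (hDW : D ⊆ W)
    (hD : ∀ v ∈ D, a ≤ d v ∧ d v ≤ b ∧ X.G.Adj v (c (d v)))
    (hinj : ∀ v ∈ D, ∀ w ∈ D, d v = d w → v = w) (hR : Pth X.G R) (hRW : ∀ x ∈ R, x ∈ W)
    (u v : V) (hu : R.head? = some u) (hv : R.getLast? = some v) (huD : u ∈ D) (hvD : v ∈ D)
    (huv : d u < d v) : (D.filter (fun v => v ∈ R)).card ≤ X.m + 3 := by
  obtain ⟨hu1, hu2, hu3⟩ := hD u huD
  obtain ⟨hv1, hv2, hv3⟩ := hD v hvD
  have hRimg : ∀ x ∈ R, x ∉ img n c := by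
    intro x hx hxi
    exact Finset.disjoint_left.1 hWd (hRW x hx) hxi
  have hEar : Ear X n c (d u) (d v) R :=
    ⟨⟨u, v, ⟨hR, hu, hv⟩, hu3.symm, hv3⟩, fun x hx => ⟨hWA (hRW x hx), hRimg x hx⟩⟩
  obtain ⟨e1, e2, _⟩ := h1 V X n c (d u) (d v) R hOk hG huv (by omega)
    (fun i hi1 hi2 => hF i (by omega) (by omega)) (by omega) hEar
  set S : List V := sg c (d u) (d v) with hS
  have hle : d u ≤ d v := huv.le
  have hSp : Pth X.G S := sg_pth hG.cr hle (by omega)
  have hSimg : ∀ x ∈ S, x ∈ img n c := by
    intro x hx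
    obtain ⟨i, _, hi2, rfl⟩ := (sg_mem c hle x).1 hx
    unfold img
    exact Finset.mem_image.2 ⟨i, Finset.mem_range.2 (by omega), rfl⟩
  have hSA : ∀ x ∈ S, x ∈ X.A := by
    intro x hx
    obtain ⟨i, _, hi2, rfl⟩ := (sg_mem c hle x).1 hx
    exact hG.sub i (by omega)
  have hdis : ∀ z ∈ S, z ∉ R.reverse := by
    intro z hz hzR
    exact hRimg z (List.mem_reverse.1 hzR) (hSimg z hz)
  have hRne : R.reverse ≠ [] := by
    intro h
    rw [List.reverse_eq_nil_iff] at h
    rw [h] at hu
    simp at hu
  have hSne : S ≠ [] := by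
    intro h
    have := sg_head c hle
    rw [← hS, h] at this
    simp at this
  have hSlen : S.length = d v + 1 - d u := sg_length c _ _
  have hRl : R.reverse.getLast? = some u := by rw [List.getLast?_reverse]; exact hu
  have hRh : R.reverse.head? = some v := by rw [List.head?_reverse]; exact hv
  have hSh : S.head? = some (c (d u)) := sg_head c hle
  have hSl : S.getLast? = some (c (d v)) := sg_last c hle
  have hCyc : Cyc X.G (S ++ R.reverse) := by
    refine ⟨?_, ⟨?_, ?_⟩, ?_⟩
    · rw [List.length_append]
      omega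
    · rw [List.nodup_append]
      refine ⟨hSp.1, (pth_reverse hR).1, ?_⟩
      intro x hx y hy hxy
      rw [hxy] at hx
      exact hdis y hx hy
    · rw [List.isChain_append]
      refine ⟨hSp.2, (pth_reverse hR).2, ?_⟩
      intro x hx y hy
      rw [hSl] at hx
      rw [hRh] at hy
      have hx' : c (d v) = x := by simpa using hx
      have hy' : v = y := by simpa using hy
      rw [← hx', ← hy']
      exact hv3.symm
    · intro x y hx hy
      rw [List.head?_append_of_ne_nil S hSne, hSh] at hx
      rw [List.getLast?_append_of_ne_nil S hRne, hRl] at hy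
      have hx' : c (d u) = x := by simpa using hx
      have hy' : u = y := by simpa using hy
      rw [← hx', ← hy']
      exact hu3
  have hlA : ∀ x ∈ S ++ R.reverse, x ∈ X.A := by
    intro x hx
    rcases List.mem_append.1 hx with h | h
    · exact hSA x h
    · exact hWA (hRW x (List.mem_reverse.1 h))
  obtain ⟨q1, q2⟩ := h2 V X.G (S ++ R.reverse) hCyc
  have hch := hOk.chd _ hCyc hlA
  have hcm := hOk.chm _ hCyc hlA
  unfold ch2 at hch
  rw [q1, q2] at hch
  set N : Finset (V × V) := (((S ++ R.reverse).toFinset ×ˢ (S ++ R.reverse).toFinset).filter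
    (fun p => X.G.Adj p.1 p.2 ∧ ¬ CA (S ++ R.reverse) p.1 p.2)) with hN
  set D' : Finset V := (D.filter (fun w => w ∈ R)) \ {u, v} with hD'
  have hD'p : ∀ w ∈ D', w ∈ D ∧ w ∈ R ∧ w ≠ u ∧ w ≠ v ∧ d u < d w ∧ d w < d v := by
    intro w hw
    rw [hD', Finset.mem_sdiff, Finset.mem_filter, Finset.mem_insert, Finset.mem_singleton] at hw
    obtain ⟨⟨hwD, hwR⟩, hne⟩ := hw
    push Not at hne
    have hw3 := hD w hwD
    have key : ¬ (d w ≤ d u ∨ d v ≤ d w) := by
      intro h
      rcases e2 w hwR (d w) (by omega) h hw3.2.2 with ⟨_, h'⟩ | ⟨_, h'⟩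
      · rw [hu] at h'
        exact hne.1 (by simpa using h'.symm)
      · rw [hv] at h'
        exact hne.2 (by simpa using h'.symm)
    push Not at key
    exact ⟨hwD, hwR, hne.1, hne.2, key.1, key.2⟩
  have hpair : ∀ w ∈ D', c (d w) ∈ S ∧ w ∈ R.reverse ∧
      ¬ CA (S ++ R.reverse) (c (d w)) w ∧ X.G.Adj w (c (d w)) := by
    intro w hw
    obtain ⟨hwD, hwR, hwu, hwv, hw1, hw2⟩ := hD'p w hw
    have hcS : c (d w) ∈ S := (sg_mem c hle _).2 ⟨d w, hw1.le, hw2.le, rfl⟩
    have hwR' : w ∈ R.reverse := List.mem_reverse.2 hwR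
    refine ⟨hcS, hwR', noCA hcS hwR' hdis ?_ ?_, (hD w hwD).2.2⟩
    · rw [hSl]
      intro h
      have h' : c (d v) = c (d w) := by simpa using h
      have := hG.cr.inj _ _ (by omega) (by omega) h'
      omega
    · rw [hRl]
      intro h
      have h' : u = w := by simpa using h
      exact hwu h'.symm
  have hcard : 2 * D'.card ≤ N.card := by
    have i1 : (D'.image (fun w => (w, c (d w)))).card = D'.card :=
      Finset.card_image_of_injective _ (fun x y hxy => (Prod.mk.inj hxy).1)
    have i2 : (D'.image (fun w => (c (d w), w))).card = D'.card :=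
      Finset.card_image_of_injective _ (fun x y hxy => (Prod.mk.inj hxy).2)
    have hdj : Disjoint (D'.image (fun w => (w, c (d w)))) (D'.image (fun w => (c (d w), w))) := by
      rw [Finset.disjoint_left]
      intro p hp hp'
      obtain ⟨w, hw, rfl⟩ := Finset.mem_image.1 hp
      obtain ⟨z, hz, hzw⟩ := Finset.mem_image.1 hp'
      have h3 : c (d z) = w := (Prod.mk.inj hzw).1
      have h4 := (hpair z hz).1
      rw [h3] at h4
      exact hdis w h4 (hpair w hw).2.1
    have hsub : D'.image (fun w => (w, c (d w))) ∪ D'.image (fun w => (c (d w), w)) ⊆ N := by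
      intro p hp
      rcases Finset.mem_union.1 hp with h | h
      · obtain ⟨w, hw, rfl⟩ := Finset.mem_image.1 h
        obtain ⟨g1, g2, g3, g4⟩ := hpair w hw
        rw [hN, Finset.mem_filter, Finset.mem_product, List.mem_toFinset, List.mem_toFinset]
        refine ⟨⟨List.mem_append.2 (Or.inr g2), List.mem_append.2 (Or.inl g1)⟩, g4, ?_⟩
        intro hCA
        exact g3 hCA.symm
      · obtain ⟨w, hw, rfl⟩ := Finset.mem_image.1 h
        obtain ⟨g1, g2, g3, g4⟩ := hpair w hw
        rw [hN, Finset.mem_filter, Finset.mem_product, List.mem_toFinset, List.mem_toFinset]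
        exact ⟨⟨List.mem_append.2 (Or.inl g1), List.mem_append.2 (Or.inr g2)⟩, g4.symm, g3⟩
    calc 2 * D'.card = (D'.image (fun w => (w, c (d w))) ∪
          D'.image (fun w => (c (d w), w))).card := by
          rw [Finset.card_union_of_disjoint hdj, i1, i2]
          ring
      _ ≤ N.card := Finset.card_le_card hsub
  have hfin : (D.filter (fun w => w ∈ R)).card ≤ D'.card + 2 := by
    have h3 : (D.filter (fun w => w ∈ R)).card ≤ D'.card + ({u, v} : Finset V).card := by
      rw [hD']
      exact Finset.card_le_card_sdiff_add_card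
    have h4 : ({u, v} : Finset V).card ≤ 2 := Finset.card_le_two
    omega
  have hfin' : (D.filter (fun w => w ∈ R)).card ≤ X.m + 3 := by omega
  convert hfin' using 2

theorem t_PB (h1 : S_EAR) (h2 : S_CH2L) : S_PB := by
  intro V _ X n c a b W D d l hOk hG hWA hWd hab hb hF hn hDW hD hinj hl hlW
  classical
  by_cases hex : ∃ x ∈ l, x ∈ D
  · obtain ⟨l1, x, l2, hl12, hxD, hl1⟩ := split1 (fun x => x ∈ D) l hex
    obtain ⟨m1, z, m2, hm, hzD, hm1⟩ := split1 (fun x => x ∈ D) (x :: l2).reverse
      ⟨x, by simp, hxD⟩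
    -- x :: l2 = m2.reverse ++ z :: m1.reverse
    have hm' : x :: l2 = (m2.reverse ++ [z]) ++ m1.reverse := by
      have := congrArg List.reverse hm
      rw [List.reverse_reverse] at this
      rw [this]
      simp
    set R : List V := m2.reverse ++ [z] with hR
    have hlR : l = l1 ++ (R ++ m1.reverse) := by rw [hl12, hm']
    have hRne : R ≠ [] := by rw [hR]; simp
    have hRh : R.head? = some x := by
      have h3 : (R ++ m1.reverse).head? = R.head? := List.head?_append_of_ne_nil R hRne
      rw [← h3, ← hm', List.head?_cons]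
    have hRl : R.getLast? = some z := by rw [hR, List.getLast?_concat]
    have hRp : Pth X.G R := by
      obtain ⟨hl3, hl4⟩ := hl
      rw [hlR] at hl3 hl4
      rw [List.isChain_append, List.isChain_append] at hl4
      exact ⟨(List.Nodup.of_append_right hl3).of_append_left, hl4.2.1.1⟩
    have hRl' : ∀ y ∈ R, y ∈ l := by
      intro y hy
      rw [hlR]
      simp [hy]
    have hRW : ∀ y ∈ R, y ∈ W := fun y hy => hlW y (hRl' y hy)
    have hmem : ∀ y ∈ D, (y ∈ l ↔ y ∈ R) := by
      intro y hy
      constructor
      · intro hyl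
        rw [hlR] at hyl
        rcases List.mem_append.1 hyl with h | h
        · exact absurd hy (hl1 y h)
        · rcases List.mem_append.1 h with h | h
          · exact h
          · exact absurd hy (hm1 y (List.mem_reverse.1 h))
      · exact hRl' y
    have hset : D.filter (fun y => y ∈ l) = D.filter (fun y => y ∈ R) := by
      apply Finset.filter_congr
      intro y hy
      exact hmem y hy
    by_cases hxz : x = z
    · -- R is a single vertex
      subst hxz
      have hsub : D.filter (fun y => y ∈ l) ⊆ {x} := by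
        rw [hset]
        intro y hy
        rw [Finset.mem_filter] at hy
        rw [Finset.mem_singleton]
        have hyR := hy.2
        have hnd := hRp.1
        cases hm2 : m2.reverse with
        | nil =>
          rw [hR, hm2] at hyR
          simpa using hyR
        | cons p q =>
          exfalso
          rw [hR, hm2] at hRh hnd
          have hpx : p = x := by simpa using hRh
          rw [hpx] at hnd
          simp at hnd
      have := Finset.card_le_card hsub
      rw [Finset.card_singleton] at this
      have h5 : (D.filter (fun v => v ∈ l)).card ≤ X.m + 3 := by omega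
      convert h5 using 2
    · have hne : d x ≠ d z := fun h => hxz (hinj x hxD z hzD h)
      rcases lt_or_gt_of_ne hne with hlt | hlt
      · have := core h1 h2 X n c a b W D d R hOk hG hWA hWd hab hb hF hn hDW hD hinj hRp hRW x z
          hRh hRl hxD hzD hlt
        have h5 : (D.filter (fun v => v ∈ l)).card ≤ X.m + 3 := by
          rw [hset]
          convert this using 2
        convert h5 using 2
      · have := core h1 h2 X n c a b W D d R.reverse hOk hG hWA hWd hab hb hF hn hDW hD hinj
          (pth_reverse hRp) (fun y hy => hRW y (List.mem_reverse.1 hy)) z x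
          (by rw [List.head?_reverse]; exact hRl) (by rw [List.getLast?_reverse]; exact hRh)
          hzD hxD hlt
        have h5 : (D.filter (fun v => v ∈ l)).card ≤ X.m + 3 := by
          rw [hset]
          simp only [List.mem_reverse] at this
          convert this using 2
        convert h5 using 2
  · have h0 : D.filter (fun v => v ∈ l) = ∅ := by
      rw [Finset.filter_eq_empty_iff]
      intro x hx hxl
      exact hex ⟨x, hxl, hx⟩
    have h5 : (D.filter (fun v => v ∈ l)).card ≤ X.m + 3 := by
      rw [h0]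
      simp
    convert h5 using 2

end Pool.Agent.W371.CH
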